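import Pool.Agent.Run7.h500.RD.Main
/-!
# MP_9de3af_an: injectivity of the Radon transform under polynomial growth, with weights that
depend on the direction only

`f : R^2 -> R` continuous, of polynomial growth, integrable over every line, with all line
integrals zero.  Suppose that for one `k` and every unit vector `u = (cos θ, sin θ)`
either `|f(z)| (1 + |z.u|)^(-k)` is integrable over the plane (no decay at all is asked along the
lines `z.u = p`) or `|f(z)| / (1 + |z|)` is integrable over some cone `|z.u| <= δ |z|` around the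
direction of these lines.  Then `f = 0`.

The second alternative at every `θ` is the known theorem (`f ∈ L^1((1+|z|)^(-1) dz)`); the point is
that at any closed set of directions it may fail.

Proof (helper500): the functions `V(w) = ∫_{y>0} f(x,y) (w y - x + c)^(-k)`, `Im w > 0`, and
`- ∫_{y<0}`, `Im w < 0`, have equal boundary values on the real line; Baire's theorem and a
Phragmen-Lindelof argument in the gaps of the exceptional set of directions show that they
continue each other; Liouville.  Pieces by helpers 62, 73, 298, 329, 417, 495, 576, 592, 733, 896,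
942, 961.
-/
set_option autoImplicit false
open MeasureTheory

namespace Pool.Agent.Results.MP_9de3af_an.DirectionalWeights

theorem result (f : ℝ × ℝ → ℝ) (hf : Continuous f)
    (hgrowth : ∃ c : ℝ, ∃ m : ℕ, 0 < c ∧
      ∀ x y : ℝ, |f (x, y)| ≤ c * (1 + (Real.sqrt (x ^ 2 + y ^ 2)) ^ m))
    (hint : ∀ θ p : ℝ, Integrable
      (fun t : ℝ => f (p * Real.cos θ - t * Real.sin θ, p * Real.sin θ + t * Real.cos θ)))
    (hzero : ∀ θ p : ℝ,
      ∫ t : ℝ, f (p * Real.cos θ - t * Real.sin θ, p * Real.sin θ + t * Real.cos θ) = 0)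
    (hdir : ∃ k : ℕ, ∀ θ : ℝ,
      Integrable (fun z : ℝ × ℝ => f z / (1 + |z.1 * Real.cos θ + z.2 * Real.sin θ|) ^ k) ∨
      ∃ δ : ℝ, 0 < δ ∧ IntegrableOn
        (fun z : ℝ × ℝ => f z / (1 + Real.sqrt (z.1 ^ 2 + z.2 ^ 2)))
        {z | |z.1 * Real.cos θ + z.2 * Real.sin θ| ≤ δ * Real.sqrt (z.1 ^ 2 + z.2 ^ 2)}) :
    f = 0 :=
  Pool.Agent.Run7.h500.RD.main f hf hgrowth hint hzero hdir

end Pool.Agent.Results.MP_9de3af_an.DirectionalWeights
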